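import Pool.Agent.H87.EBK.Stmts3

/-!
Row HUB of the board `ebt` (MP_93721d_nt)
-/

set_option autoImplicit false

namespace Pool.EBK

theorem hub (hS : STA) : HUB := by
  intro h p q hp hq hT h1 h2
  obtain ⟨hT', hv⟩ := hS p q h hp hq hT
  exact ⟨hp, hq, p * q / h, hT', by omega, by omega⟩

end Pool.EBK
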